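import Pool.Agent.H.MP_a0fd6e_gt.C

namespace Pool.Agent.Results.MP_a0fd6e_gt.Yes
open Pool.Agent.H.MP_a0fd6e_gt

universe u v

theorem result (T : Type u) [PartialOrder T] [OrderBot T] (hT : IsTreeOrder T)
    (X : Type v) [TopologicalSpace X] (e : X ≃ₜ Ray T) (U : Set X) (hU : IsOpen U) :
    ∃ (T' : Type u) (_ : PartialOrder T') (_ : OrderBot T'), IsTreeOrder T' ∧
      ∃ f : U → Ray T', Continuous f ∧ Function.Bijective f := by
  have h := main (forest_of hT) (e.symm ⁻¹' U) (hU.preimage e.symm.continuous)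
  have hm : ∀ x : U, e x.1 ∈ e.symm ⁻¹' U := fun x => by simp
  refine (h.comp (X := U) (fun x => ⟨e x.1, hm x⟩)
    ((e.continuous.comp continuous_subtype_val).subtype_mk hm) ⟨?_, ?_⟩).tree
  · intro x y k
    exact Subtype.ext (e.injective (congrArg Subtype.val k))
  · intro y
    exact ⟨⟨e.symm y.1, y.2⟩, Subtype.ext (e.apply_symm_apply _)⟩

end Pool.Agent.Results.MP_a0fd6e_gt.Yes
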